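import Mathlib

/-!
# A convolution recursion whose `d`-th roots are not eventually monotone

The rational function `f a b = a b / (a + b) + b^20 / (1 + (a - 2)^2 b^20) + K / (1 + ((a - 1)^2 +
(b - 1)^2) K)` with `K = 10^18` is admissible, but the even and the odd terms of the sequence grow
almost independently, the even ones being relatively much larger.
-/

set_option autoImplicit false

namespace Pool.Agent.Results.MP_0f9b8a_co.ParityOscillation

open Filter Finset

/-- `f` is given on the positive integers by a rational function in two variables with rational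
coefficients whose denominator does not vanish at pairs of positive integers. -/
def IsRationalFun (f : ℕ → ℕ → ℝ) : Prop :=
  ∃ P Q : MvPolynomial (Fin 2) ℚ, ∀ a b : ℕ, 1 ≤ a → 1 ≤ b →
    MvPolynomial.aeval ![(a : ℝ), (b : ℝ)] Q ≠ 0 ∧
    f a b = MvPolynomial.aeval ![(a : ℝ), (b : ℝ)] P / MvPolynomial.aeval ![(a : ℝ), (b : ℝ)] Q

/-- Admissible functions. -/
def Admissible (f : ℕ → ℕ → ℝ) : Prop :=
  IsRationalFun f ∧ (∀ a b : ℕ, 1 ≤ a → 1 ≤ b → 0 < f a b) ∧
  ∃ k : ℝ, 0 < k ∧ ∃ c : ℝ, 0 < c ∧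
    Tendsto (fun p : ℕ × ℕ => f p.1 p.2 / (((p.1 : ℝ) * p.2) / ((p.1 : ℝ) + p.2)) ^ k)
      (atTop ×ˢ atTop) (nhds c)

/-- The sequence `n` satisfies the convolution recursion of `f`. -/
def Recursion (f : ℕ → ℕ → ℝ) (n : ℕ → ℝ) : Prop :=
  ∀ d, 2 ≤ d → n d = ∑ i ∈ Ico 1 d, f i (d - i) * n i * n (d - i)

/-! ### The double factorial -/

/-- `phi d = (d - 2)!!`. -/
def phi : ℕ → ℕ
  | 0 => 1
  | 1 => 1
  | 2 => 1
  | (d + 3) => (d + 1) * phi (d + 1)

lemma phi_succ (d : ℕ) : phi (d + 3) = (d + 1) * phi (d + 1) := by rw [phi]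

lemma phi_pos (d : ℕ) : 0 < phi d := by
  induction d using Nat.strong_induction_on with
  | _ d ih =>
    match d with
    | 0 => norm_num [phi]
    | 1 => norm_num [phi]
    | 2 => norm_num [phi]
    | (d + 3) =>
      rw [phi_succ]
      exact Nat.mul_pos (by omega) (ih _ (by omega))

lemma phi_mono (d : ℕ) : phi (d + 1) ≤ phi (d + 2) := by
  induction d using Nat.strong_induction_on with
  | _ d ih =>
    match d with
    | 0 => norm_num [phi]
    | 1 => norm_num [phi]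
    | (d + 2) =>
      rw [phi_succ d, phi_succ (d + 1)]
      exact Nat.mul_le_mul (by omega) (ih d (by omega))

lemma phi_mul (a : ℕ) : ∀ b : ℕ, phi (a + 2) * phi (b + 2) * (a + b + 2) ≤ phi (a + b + 4) := by
  induction a using Nat.strong_induction_on with
  | _ a ih =>
    intro b
    match a with
    | 0 =>
      have h : phi (0 + b + 4) = (b + 2) * phi (b + 2) := by
        rw [show 0 + b + 4 = (b + 1) + 3 by ring, phi_succ]
      rw [h]
      simp only [phi, zero_add, one_mul]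
      rw [mul_comm]
    | 1 =>
      have h : phi (1 + b + 4) = (b + 3) * phi (b + 3) := by
        rw [show 1 + b + 4 = (b + 2) + 3 by ring, phi_succ]
      have h3 : phi (1 + 2) = 1 := by norm_num [phi]
      have h4 := phi_mono (b + 1)
      rw [h, h3, one_mul, mul_comm]
      exact Nat.mul_le_mul (by omega) h4
    | (a + 2) =>
      have h1 := ih a (by omega) b
      have h2 : phi (a + 2 + 2) = (a + 2) * phi (a + 2) := by
        rw [show a + 2 + 2 = (a + 1) + 3 by ring, phi_succ]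
      have h3 : phi (a + 2 + b + 4) = (a + b + 4) * phi (a + b + 4) := by
        rw [show a + 2 + b + 4 = (a + b + 3) + 3 by ring, phi_succ]
      rw [h2, h3]
      calc (a + 2) * phi (a + 2) * phi (b + 2) * (a + 2 + b + 2)
          = (a + b + 4) * ((phi (a + 2) * phi (b + 2)) * (a + 2)) := by ring
        _ ≤ (a + b + 4) * ((phi (a + 2) * phi (b + 2)) * (a + b + 2)) := by
            apply Nat.mul_le_mul_left
            apply Nat.mul_le_mul_left
            omega
        _ ≤ (a + b + 4) * phi (a + b + 4) := Nat.mul_le_mul_left _ h1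

lemma phi_ratio (e : ℕ) : phi (e + 1) ^ 2 * (e + 1) ≤ 2 * phi (e + 2) ^ 2 := by
  induction e using Nat.strong_induction_on with
  | _ e ih =>
    match e with
    | 0 => norm_num [phi]
    | 1 => norm_num [phi]
    | (e + 2) =>
      have h1 := ih e (by omega)
      rw [show e + 2 + 1 = e + 3 by ring, show e + 2 + 2 = (e + 1) + 3 by ring, phi_succ, phi_succ]
      calc ((e + 1) * phi (e + 1)) ^ 2 * (e + 3)
          = (phi (e + 1) ^ 2 * (e + 1)) * ((e + 1) * (e + 3)) := by ring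
        _ ≤ (2 * phi (e + 2) ^ 2) * ((e + 1) * (e + 3)) := Nat.mul_le_mul_right _ h1
        _ ≤ (2 * phi (e + 2) ^ 2) * ((e + 2) ^ 2) := by
            apply Nat.mul_le_mul_left
            nlinarith
        _ = 2 * ((e + 1 + 1) * phi (e + 1 + 1)) ^ 2 := by ring

lemma phi_odd (m : ℕ) : phi (2 * m + 3) ^ 2 ≤ (2 * m + 1) * phi (2 * m + 2) ^ 2 := by
  induction m with
  | zero => norm_num [phi]
  | succ m ih =>
    rw [show 2 * (m + 1) + 3 = (2 * m + 2) + 3 by ring, show 2 * (m + 1) + 2 = (2 * m + 1) + 3 by ring,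
      phi_succ, phi_succ]
    calc ((2 * m + 2 + 1) * phi (2 * m + 2 + 1)) ^ 2
        = (2 * m + 3) ^ 2 * phi (2 * m + 3) ^ 2 := by ring
      _ ≤ (2 * m + 3) ^ 2 * ((2 * m + 1) * phi (2 * m + 2) ^ 2) := Nat.mul_le_mul_left _ ih
      _ = ((2 * m + 3) * (2 * m + 1)) * ((2 * m + 3) * phi (2 * m + 2) ^ 2) := by ring
      _ ≤ (2 * m + 2) ^ 2 * ((2 * m + 3) * phi (2 * m + 2) ^ 2) := by
          apply Nat.mul_le_mul_right
          nlinarith
      _ = (2 * (m + 1) + 1) * ((2 * m + 1 + 1) * phi (2 * m + 1 + 1)) ^ 2 := by ring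

lemma pow_le_phi (m : ℕ) : ((2 * m + 2 : ℕ) : ℝ) ^ (m + 1) ≤ 6 ^ (m + 1) * (phi (2 * m + 2) : ℝ) := by
  induction m with
  | zero => norm_num [phi]
  | succ m ih =>
    have h1 : (phi (2 * (m + 1) + 2) : ℝ) = (2 * m + 2) * phi (2 * m + 2) := by
      rw [show 2 * (m + 1) + 2 = (2 * m + 1) + 3 by ring, phi_succ]
      push_cast
      ring
    have hm : (0 : ℝ) < (m : ℝ) + 1 := by positivity
    have h2 : (1 + 1 / ((m : ℝ) + 1)) ^ (m + 1) ≤ 3 := by
      have e1 : 1 + 1 / ((m : ℝ) + 1) ≤ Real.exp (1 / ((m : ℝ) + 1)) := by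
        have := Real.add_one_le_exp (1 / ((m : ℝ) + 1))
        linarith
      have e2 : (1 + 1 / ((m : ℝ) + 1)) ^ (m + 1) ≤ Real.exp (1 / ((m : ℝ) + 1)) ^ (m + 1) :=
        pow_le_pow_left₀ (by positivity) e1 _
      have e3 : Real.exp (1 / ((m : ℝ) + 1)) ^ (m + 1) = Real.exp 1 := by
        rw [← Real.exp_nat_mul]
        congr 1
        push_cast
        field_simp
      have e4 := Real.exp_one_lt_d9
      rw [e3] at e2
      linarith
    rw [h1]
    push_cast at ih ⊢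
    have h3 : (2 * ((m : ℝ) + 1) + 2) ^ (m + 1 + 1) =
        (2 * (m : ℝ) + 2) ^ (m + 1) * (1 + 1 / ((m : ℝ) + 1)) ^ (m + 1) * (2 * (m : ℝ) + 4) := by
      have h8 : 2 * ((m : ℝ) + 1) + 2 = (2 * (m : ℝ) + 2) * (1 + 1 / ((m : ℝ) + 1)) := by
        field_simp
      rw [← mul_pow, pow_succ, ← h8]
      ring
    rw [h3]
    have h4 : (2 * (m : ℝ) + 2) ^ (m + 1) * (1 + 1 / ((m : ℝ) + 1)) ^ (m + 1) ≤
        (6 ^ (m + 1) * (phi (2 * m + 2) : ℝ)) * 3 :=
      mul_le_mul ih h2 (by positivity) (by positivity)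
    have h5 : (2 * (m : ℝ) + 2) ^ (m + 1) * (1 + 1 / ((m : ℝ) + 1)) ^ (m + 1) * (2 * (m : ℝ) + 4) ≤
        (6 ^ (m + 1) * (phi (2 * m + 2) : ℝ)) * 3 * (2 * (m : ℝ) + 4) :=
      mul_le_mul_of_nonneg_right h4 (by positivity)
    refine h5.trans ?_
    have h6 : (0 : ℝ) ≤ 6 ^ (m + 1) * (phi (2 * m + 2) : ℝ) := by positivity
    have h7 : (6 : ℝ) ^ (m + 1 + 1) * ((2 * (m : ℝ) + 2) * (phi (2 * m + 2) : ℝ)) =
        (6 ^ (m + 1) * (phi (2 * m + 2) : ℝ)) * (6 * (2 * (m : ℝ) + 2)) := by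
      rw [pow_succ (6 : ℝ) (m + 1)]
      ring
    rw [h7, mul_assoc]
    apply mul_le_mul_of_nonneg_left _ h6
    nlinarith

/-! ### The function -/

/-- The large constant. -/
def K : ℝ := 10 ^ 18

/-- The second summand. -/
noncomputable def s2 (a b : ℝ) : ℝ := b ^ 20 / (1 + (a - 2) ^ 2 * b ^ 20)

/-- The third summand. -/
noncomputable def s3 (a b : ℝ) : ℝ := K / (1 + ((a - 1) ^ 2 + (b - 1) ^ 2) * K)

/-- The admissible function. -/
noncomputable def F (a b : ℕ) : ℝ := (a : ℝ) * b / ((a : ℝ) + b) + s2 a b + s3 a b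

lemma K_pos : 0 < K := by unfold K; norm_num

lemma s2_nonneg (a b : ℝ) : 0 ≤ s2 a b := by
  unfold s2
  positivity

lemma s3_nonneg (a b : ℝ) : 0 ≤ s3 a b := by
  have := K_pos
  unfold s3
  positivity

lemma s2_le {a b : ℝ} (ha : 1 ≤ (a - 2) ^ 2) : s2 a b ≤ 1 := by
  unfold s2
  have h : 0 ≤ b ^ 20 := by positivity
  rw [div_le_one (by positivity)]
  nlinarith

lemma s3_le {a b : ℝ} (h : 1 ≤ (a - 1) ^ 2 + (b - 1) ^ 2) : s3 a b ≤ 1 := by
  have hK := K_pos
  unfold s3
  rw [div_le_one (by positivity)]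
  nlinarith

lemma frac_le {a b : ℝ} (ha : 0 < a) (hb : 0 < b) : a * b / (a + b) ≤ (a + b) / 4 := by
  rw [div_le_div_iff₀ (by positivity) (by norm_num)]
  nlinarith [sq_nonneg (a - b)]

lemma one_le_sq {x : ℕ} {c : ℕ} (h : x ≠ c) : (1 : ℝ) ≤ ((x : ℝ) - c) ^ 2 := by
  have h1 : (1 : ℤ) ≤ ((x : ℤ) - c) ^ 2 := by
    have : (x : ℤ) - c ≠ 0 := by omega
    have := sq_pos_of_ne_zero this
    omega
  exact_mod_cast h1

lemma F_pos {a b : ℕ} (ha : 1 ≤ a) (hb : 1 ≤ b) : 0 < F a b := by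
  have h1 : (0 : ℝ) < a := by exact_mod_cast ha
  have h2 : (0 : ℝ) < b := by exact_mod_cast hb
  have h3 := s2_nonneg (a : ℝ) b
  have h4 := s3_nonneg (a : ℝ) b
  have h5 : 0 < (a : ℝ) * b / ((a : ℝ) + b) := by positivity
  unfold F
  linarith

lemma F_le {a b : ℕ} (ha : 1 ≤ a) (hb : 1 ≤ b) (ha2 : a ≠ 2) (hab : ¬ (a = 1 ∧ b = 1)) :
    F a b ≤ ((a : ℝ) + b) / 4 + 2 := by
  have h1 : (0 : ℝ) < a := by exact_mod_cast ha
  have h2 : (0 : ℝ) < b := by exact_mod_cast hb
  have h3 : s2 a b ≤ 1 := s2_le (by exact_mod_cast one_le_sq ha2)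
  have h4 : s3 a b ≤ 1 := by
    apply s3_le
    rcases Nat.eq_or_lt_of_le ha with h | h
    · have hb' : b ≠ 1 := fun h' => hab ⟨h.symm, h'⟩
      have := one_le_sq hb'
      push_cast at this
      have := sq_nonneg ((a : ℝ) - 1)
      linarith
    · have := one_le_sq (show a ≠ 1 by omega)
      push_cast at this
      have := sq_nonneg ((b : ℝ) - 1)
      linarith
  have h5 := frac_le h1 h2
  unfold F
  linarith

lemma F_two_le {b : ℕ} (hb : 1 ≤ b) : F 2 b ≤ (b : ℝ) ^ 20 + 3 := by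
  have h2 : (0 : ℝ) < b := by exact_mod_cast hb
  have h3 : s2 (2 : ℕ) b = (b : ℝ) ^ 20 := by simp [s2]
  have h4 : s3 (2 : ℕ) b ≤ 1 := by
    apply s3_le
    push_cast
    have := sq_nonneg ((b : ℝ) - 1)
    linarith
  have h5 : ((2 : ℕ) : ℝ) * b / (((2 : ℕ) : ℝ) + b) ≤ 2 := by
    push_cast
    rw [div_le_iff₀ (by positivity)]
    linarith
  unfold F
  rw [h3]
  push_cast at h4 h5 ⊢
  linarith

lemma le_F_two {b : ℕ} (hb : 1 ≤ b) : (b : ℝ) ^ 20 ≤ F 2 b := by
  have h2 : (0 : ℝ) < b := by exact_mod_cast hb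
  have h3 : s2 (2 : ℕ) b = (b : ℝ) ^ 20 := by simp [s2]
  have h4 := s3_nonneg ((2 : ℕ) : ℝ) b
  have h5 : 0 ≤ ((2 : ℕ) : ℝ) * b / (((2 : ℕ) : ℝ) + b) := by positivity
  unfold F
  rw [h3]
  push_cast at h4 h5 ⊢
  linarith

lemma F_one_one : F 1 1 = K + 1 := by
  unfold F s2 s3
  norm_num
  ring

/-! ### The sequence -/

/-- The sequence with `n 1 = 1`. -/
noncomputable def seq : ℕ → ℝ
  | 0 => 0
  | 1 => 1
  | (d + 2) => ∑ i : Fin (d + 1), F (i.val + 1) (d + 1 - i.val) * seq (i.val + 1) *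
      seq (d + 1 - i.val)

lemma seq_rec : Recursion F seq := by
  intro d hd
  obtain ⟨d, rfl⟩ : ∃ e, d = e + 2 := ⟨d - 2, by omega⟩
  rw [seq, Fin.sum_univ_eq_sum_range (fun i => F (i + 1) (d + 1 - i) * seq (i + 1) *
    seq (d + 1 - i)), Finset.sum_Ico_eq_sum_range]
  apply Finset.sum_congr rfl
  intro i _
  rw [add_comm 1 i, show d + 2 - (i + 1) = d + 1 - i by omega]

/-- The value of the second term. -/
noncomputable def κ : ℝ := K + 1

lemma κ_pos : 0 < κ := by unfold κ; linarith [K_pos]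

lemma one_le_κ : 1 ≤ κ := by unfold κ; linarith [K_pos]

lemma seq_one : seq 1 = 1 := by rw [seq]

lemma seq_two : seq 2 = κ := by
  rw [seq_rec 2 le_rfl]
  have : Ico 1 2 = {1} := by decide
  rw [this, sum_singleton, show 2 - 1 = 1 by norm_num, seq_one, F_one_one]
  unfold κ
  ring

lemma seq_nonneg : ∀ d, 0 ≤ seq d := by
  intro d
  induction d using Nat.strong_induction_on with
  | _ d ih =>
    rcases Nat.lt_or_ge d 2 with h | h
    · interval_cases d
      · rw [seq]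
      · rw [seq_one]; norm_num
    · rw [seq_rec d h]
      apply sum_nonneg
      intro i hi
      rw [mem_Ico] at hi
      exact mul_nonneg (mul_nonneg (F_pos hi.1 (by omega)).le (ih i hi.2)) (ih _ (by omega))

/-- The lower bound at even indices. -/
lemma lower (m : ℕ) : κ ^ (m + 1) * (phi (2 * m + 2) : ℝ) ^ 20 ≤ seq (2 * m + 2) := by
  induction m with
  | zero =>
    simp only [phi, mul_zero, zero_add, pow_one, Nat.cast_one, one_pow, mul_one]
    rw [seq_two]
  | succ m ih =>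
    rw [seq_rec (2 * (m + 1) + 2) (by omega)]
    have h2 : 2 ∈ Ico 1 (2 * (m + 1) + 2) := by
      rw [mem_Ico]
      omega
    refine le_trans ?_ (single_le_sum (f := fun i => F i (2 * (m + 1) + 2 - i) * seq i *
      seq (2 * (m + 1) + 2 - i)) (fun i hi => ?_) h2)
    · rw [show 2 * (m + 1) + 2 - 2 = 2 * m + 2 by omega, seq_two]
      have h3 := le_F_two (b := 2 * m + 2) (by omega)
      have h4 : (phi (2 * (m + 1) + 2) : ℝ) = ((2 * m + 2 : ℕ) : ℝ) * phi (2 * m + 2) := by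
        rw [show 2 * (m + 1) + 2 = (2 * m + 1) + 3 by ring, phi_succ]
        push_cast
        ring
      rw [h4]
      have hκ := κ_pos
      calc κ ^ (m + 1 + 1) * (((2 * m + 2 : ℕ) : ℝ) * phi (2 * m + 2)) ^ 20
          = ((2 * m + 2 : ℕ) : ℝ) ^ 20 * κ * (κ ^ (m + 1) * (phi (2 * m + 2) : ℝ) ^ 20) := by
            rw [pow_succ κ (m + 1), mul_pow]
            ring
        _ ≤ F 2 (2 * m + 2) * κ * seq (2 * m + 2) := by
            apply mul_le_mul _ ih (by positivity)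
            · exact mul_nonneg (F_pos (by norm_num) (by omega)).le hκ.le
            · exact mul_le_mul_of_nonneg_right h3 hκ.le
    · rw [mem_Ico] at hi
      exact mul_nonneg (mul_nonneg (F_pos hi.1 (by omega)).le (seq_nonneg _)) (seq_nonneg _)

/-- The numerical inequality behind the upper bound; here `y = d - 1`. -/
lemma num_ineq {y : ℝ} (hy : 3 ≤ y) :
    45 / (y - 1) ^ 20 + ((y + 1) / 4 + 2) * (30 * (2 / y) ^ 10 + 225 * (y - 2) / (y - 1) ^ 20) ≤
      15 / (y - 1) - 15 / (y + 1) := by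
  have h1 : 0 < y - 1 := by linarith
  have h2 : 0 < y := by linarith
  have h3 : 0 < y + 1 := by linarith
  have hr : 15 / (y - 1) - 15 / (y + 1) = 30 / ((y - 1) * (y + 1)) := by
    field_simp
    ring
  rw [hr]
  have hle : (y + 1) / 4 + 2 ≤ y := by linarith
  -- first term
  have p1 : (2 : ℝ) ^ 18 ≤ (y - 1) ^ 18 := pow_le_pow_left₀ (by norm_num) (by linarith) 18
  have hden : (y - 1) * (y + 1) ≤ 2 * (y - 1) ^ 2 := by nlinarith
  have t1 : 45 / (y - 1) ^ 20 ≤ 1 / ((y - 1) * (y + 1)) := by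
    rw [div_le_div_iff₀ (by positivity) (by positivity)]
    have e : (y - 1) ^ 20 = (y - 1) ^ 18 * (y - 1) ^ 2 := by ring
    rw [e]
    have : (2 : ℝ) ^ 18 * (y - 1) ^ 2 ≤ (y - 1) ^ 18 * (y - 1) ^ 2 :=
      mul_le_mul_of_nonneg_right p1 (by positivity)
    nlinarith
  -- second term
  have q1 : (2 / y) ^ 10 ≤ (2 / 3) ^ 6 * (2 / y) ^ 4 := by
    have e : (2 / y) ^ 10 = (2 / y) ^ 6 * (2 / y) ^ 4 := by ring
    rw [e]
    apply mul_le_mul_of_nonneg_right _ (by positivity)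
    apply pow_le_pow_left₀ (by positivity)
    rw [div_le_div_iff₀ h2 (by norm_num)]
    linarith
  have t2 : y * (30 * (2 / y) ^ 10) ≤ 28 / ((y - 1) * (y + 1)) := by
    have e1 : y * (30 * (2 / y) ^ 10) ≤ y * (30 * ((2 / 3) ^ 6 * (2 / y) ^ 4)) := by
      apply mul_le_mul_of_nonneg_left _ h2.le
      linarith
    refine e1.trans ?_
    have e2 : y * (30 * ((2 / 3 : ℝ) ^ 6 * (2 / y) ^ 4)) = 10240 / 243 / y ^ 3 := by
      field_simp
      norm_num
    rw [e2, div_le_div_iff₀ (by positivity) (by positivity)]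
    have e3 : (y - 1) * (y + 1) ≤ y ^ 2 := by nlinarith
    have e4 : y ^ 3 = y * y ^ 2 := by ring
    have e5 : 3 * y ^ 2 ≤ y * y ^ 2 := mul_le_mul_of_nonneg_right hy (by positivity)
    rw [e4]
    nlinarith
  -- third term
  have t3 : y * (225 * (y - 2) / (y - 1) ^ 20) ≤ 1 / ((y - 1) * (y + 1)) := by
    rw [← mul_div_assoc, div_le_div_iff₀ (by positivity) (by positivity)]
    have e : (y - 1) ^ 20 = (y - 1) ^ 16 * (y - 1) ^ 4 := by ring
    have p2 : (2 : ℝ) ^ 16 ≤ (y - 1) ^ 16 := pow_le_pow_left₀ (by norm_num) (by linarith) 16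
    have e6 : y * (y - 2) ≤ (y - 1) ^ 2 := by nlinarith
    have e7 : y * (225 * (y - 2)) * ((y - 1) * (y + 1)) ≤
        225 * (y - 1) ^ 2 * (2 * (y - 1) ^ 2) := by
      have : y * (225 * (y - 2)) = 225 * (y * (y - 2)) := by ring
      rw [this]
      apply mul_le_mul (by linarith) hden (by positivity) (by positivity)
    rw [e]
    have : (2 : ℝ) ^ 16 * (y - 1) ^ 4 ≤ (y - 1) ^ 16 * (y - 1) ^ 4 :=
      mul_le_mul_of_nonneg_right p2 (by positivity)
    have e8 : 0 ≤ (y - 1) ^ 4 := by positivity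
    nlinarith
  have hin : 0 ≤ 30 * (2 / y) ^ 10 + 225 * (y - 2) / (y - 1) ^ 20 := by
    have : 0 ≤ 225 * (y - 2) / (y - 1) ^ 20 := by
      apply div_nonneg _ (by positivity)
      linarith
    positivity
  have t4 := mul_le_mul_of_nonneg_right hle hin
  have e9 : 30 / ((y - 1) * (y + 1)) = 1 / ((y - 1) * (y + 1)) + 28 / ((y - 1) * (y + 1)) +
      1 / ((y - 1) * (y + 1)) := by ring
  rw [e9]
  rw [mul_add y] at t4
  linarith

/-- The slowly increasing factor. -/
noncomputable def R (d : ℕ) : ℝ := if d = 1 then 1 else 15 - 15 / (d : ℝ)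

lemma R_nonneg {d : ℕ} (hd : 1 ≤ d) : 0 ≤ R d := by
  unfold R
  split_ifs with h
  · norm_num
  · have : (1 : ℝ) ≤ d := by exact_mod_cast hd
    have : 15 / (d : ℝ) ≤ 15 := by
      rw [div_le_iff₀ (by positivity)]
      linarith
    linarith

lemma R_le {d : ℕ} : R d ≤ 15 := by
  unfold R
  split_ifs with h
  · norm_num
  · have : 0 ≤ 15 / (d : ℝ) := by positivity
    linarith

/-- The upper bound. -/
lemma upper (d : ℕ) (hd : 1 ≤ d) : seq d ≤ κ ^ (d / 2) * R d * (phi d : ℝ) ^ 20 := by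
  induction d using Nat.strong_induction_on with
  | _ d ih =>
    have hκ := κ_pos
    have hκ1 := one_le_κ
    match d, hd with
    | 1, _ =>
      rw [seq_one]
      norm_num [phi, R]
    | 2, _ =>
      rw [seq_two]
      norm_num [phi, R]
      linarith
    | 3, _ =>
      rw [seq_rec 3 (by norm_num)]
      have hI : Ico 1 3 = {1, 2} := by decide
      rw [hI, sum_pair (by norm_num), show 3 - 1 = 2 by norm_num, show 3 - 2 = 1 by norm_num, seq_one,
        seq_two]
      have h1 := F_le (a := 1) (b := 2) le_rfl (by norm_num) (by norm_num) (by norm_num)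
      have h2 := F_two_le (b := 1) le_rfl
      norm_num [phi, R] at h1 h2 ⊢
      nlinarith
    | (e + 4), _ =>
      set P : ℝ := κ ^ ((e + 4) / 2) * (phi (e + 4) : ℝ) ^ 20 with hP
      have hP0 : 0 ≤ P := by positivity
      set y : ℝ := (e : ℝ) + 3 with hy
      have he0 : (0 : ℝ) ≤ e := by positivity
      have hy3 : 3 ≤ y := by rw [hy]; linarith
      have hphi2 : (phi (e + 4) : ℝ) = (y - 1) * phi (e + 2) := by
        rw [show e + 4 = (e + 1) + 3 by ring, phi_succ, hy]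
        push_cast
        ring
      have hphi3 : (phi (e + 3) : ℝ) ^ 20 ≤ (2 / y) ^ 10 * (phi (e + 4) : ℝ) ^ 20 := by
        have h1 := phi_ratio (e + 2)
        have h2 : (phi (e + 3) : ℝ) ^ 2 * y ≤ 2 * (phi (e + 4) : ℝ) ^ 2 := by
          have : ((phi (e + 2 + 1) ^ 2 * (e + 2 + 1) : ℕ) : ℝ) ≤ ((2 * phi (e + 2 + 2) ^ 2 : ℕ) : ℝ) := by
            exact_mod_cast h1
          push_cast at this
          rw [hy]
          linarith
        have h3 : (phi (e + 3) : ℝ) ^ 2 ≤ (2 / y) * (phi (e + 4) : ℝ) ^ 2 := by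
          rw [div_mul_eq_mul_div, le_div_iff₀ (by linarith)]
          exact h2
        have h4 := pow_le_pow_left₀ (by positivity) h3 10
        calc (phi (e + 3) : ℝ) ^ 20 = ((phi (e + 3) : ℝ) ^ 2) ^ 10 := by ring
          _ ≤ ((2 / y) * (phi (e + 4) : ℝ) ^ 2) ^ 10 := h4
          _ = (2 / y) ^ 10 * (phi (e + 4) : ℝ) ^ 20 := by rw [mul_pow]; ring
      have hphi0 : 0 < (phi (e + 2) : ℝ) := by exact_mod_cast phi_pos _
      have hsplit : seq (e + 4) = F 1 (e + 3) * seq 1 * seq (e + 3) +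
          (F 2 (e + 2) * seq 2 * seq (e + 2) +
          ∑ i ∈ Ico 3 (e + 3), F i (e + 4 - i) * seq i * seq (e + 4 - i)) +
          F (e + 3) 1 * seq (e + 3) * seq 1 := by
        rw [seq_rec (e + 4) (by omega), sum_Ico_succ_top (by omega : 1 ≤ e + 3),
          sum_eq_sum_Ico_succ_bot (by omega : 1 < e + 3),
          sum_eq_sum_Ico_succ_bot (by omega : 1 + 1 < e + 3)]
        rw [show e + 4 - 1 = e + 3 by omega, show e + 4 - (1 + 1) = e + 2 by omega,
          show e + 4 - (e + 3) = 1 by omega]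
      -- the term `i = 2`
      have t2 : F 2 (e + 2) * seq 2 * seq (e + 2) ≤
          P * (15 - 15 / (y - 1) + 45 / (y - 1) ^ 20) := by
        have h1 := F_two_le (b := e + 2) (by omega)
        have h2 := ih (e + 2) (by omega) (by omega)
        have hR : R (e + 2) = 15 - 15 / (y - 1) := by
          unfold R
          rw [if_neg (by omega), hy]
          push_cast
          ring_nf
        have hR0 := R_nonneg (d := e + 2) (by omega)
        have hR15 := R_le (d := e + 2)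
        have h3 : F 2 (e + 2) * seq 2 * seq (e + 2) ≤ (((e + 2 : ℕ) : ℝ) ^ 20 + 3) * κ *
            (κ ^ ((e + 2) / 2) * R (e + 2) * (phi (e + 2) : ℝ) ^ 20) := by
          rw [seq_two]
          apply mul_le_mul _ h2 (seq_nonneg _) (by positivity)
          exact mul_le_mul_of_nonneg_right h1 hκ.le
        refine h3.trans ?_
        have h4 : κ ^ ((e + 4) / 2) = κ ^ ((e + 2) / 2) * κ := by
          rw [show (e + 4) / 2 = (e + 2) / 2 + 1 by omega, pow_succ]
        have hy1 : ((e + 2 : ℕ) : ℝ) = y - 1 := by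
          rw [hy]; push_cast; ring
        rw [hP, h4, hphi2, hy1]
        have h5 : ((y - 1) ^ 20 + 3) * κ * (κ ^ ((e + 2) / 2) * R (e + 2) * (phi (e + 2) : ℝ) ^ 20) =
            (κ ^ ((e + 2) / 2) * κ * (phi (e + 2) : ℝ) ^ 20) *
            ((y - 1) ^ 20 * R (e + 2) + 3 * R (e + 2)) := by ring
        have h6 : κ ^ ((e + 2) / 2) * κ * ((y - 1) * (phi (e + 2) : ℝ)) ^ 20 *
            (15 - 15 / (y - 1) + 45 / (y - 1) ^ 20) =
            (κ ^ ((e + 2) / 2) * κ * (phi (e + 2) : ℝ) ^ 20) *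
            ((y - 1) ^ 20 * (15 - 15 / (y - 1)) + 45) := by
          have h7 : (y - 1) ^ 20 ≠ 0 := pow_ne_zero _ (by linarith)
          have h8 : (y - 1) ^ 20 * (45 / (y - 1) ^ 20) = 45 := mul_div_cancel₀ _ h7
          rw [mul_pow]
          calc κ ^ ((e + 2) / 2) * κ * ((y - 1) ^ 20 * (phi (e + 2) : ℝ) ^ 20) *
                (15 - 15 / (y - 1) + 45 / (y - 1) ^ 20)
              = (κ ^ ((e + 2) / 2) * κ * (phi (e + 2) : ℝ) ^ 20) *
                ((y - 1) ^ 20 * (15 - 15 / (y - 1)) + (y - 1) ^ 20 * (45 / (y - 1) ^ 20)) := by ring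
            _ = _ := by rw [h8]
        rw [h5, h6, ← hR]
        apply mul_le_mul_of_nonneg_left _ (by positivity)
        linarith
      -- the terms `i = 1` and `i = e + 3`
      have hκle : κ ^ ((e + 3) / 2) ≤ κ ^ ((e + 4) / 2) := pow_le_pow_right₀ hκ1 (by omega)
      have h3s : seq (e + 3) ≤ 15 * (2 / y) ^ 10 * P := by
        have h2 := ih (e + 3) (by omega) (by omega)
        refine h2.trans ?_
        have hR15 := R_le (d := e + 3)
        have hR0 := R_nonneg (d := e + 3) (by omega)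
        calc κ ^ ((e + 3) / 2) * R (e + 3) * (phi (e + 3) : ℝ) ^ 20
            ≤ κ ^ ((e + 4) / 2) * 15 * ((2 / y) ^ 10 * (phi (e + 4) : ℝ) ^ 20) := by
              apply mul_le_mul _ hphi3 (by positivity) (by positivity)
              exact mul_le_mul hκle hR15 hR0 (by positivity)
          _ = 15 * (2 / y) ^ 10 * P := by rw [hP]; ring
      have t1 : F 1 (e + 3) * seq 1 * seq (e + 3) ≤ ((y + 1) / 4 + 2) * (15 * (2 / y) ^ 10 * P) := by
        have h1 := F_le (a := 1) (b := e + 3) le_rfl (by omega) (by norm_num) (by omega)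
        rw [seq_one, mul_one]
        apply mul_le_mul _ h3s (seq_nonneg _) (by positivity)
        refine h1.trans (le_of_eq ?_)
        rw [hy]; push_cast; ring
      have t3 : F (e + 3) 1 * seq (e + 3) * seq 1 ≤ ((y + 1) / 4 + 2) * (15 * (2 / y) ^ 10 * P) := by
        have h1 := F_le (a := e + 3) (b := 1) (by omega) le_rfl (by omega) (by omega)
        rw [seq_one, mul_one]
        apply mul_le_mul _ h3s (seq_nonneg _) (by positivity)
        refine h1.trans (le_of_eq ?_)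
        rw [hy]; push_cast; ring
      -- the middle terms
      have tm : ∀ i ∈ Ico 3 (e + 3), F i (e + 4 - i) * seq i * seq (e + 4 - i) ≤
          ((y + 1) / 4 + 2) * (225 / (y - 1) ^ 20 * P) := by
        intro i hi
        rw [mem_Ico] at hi
        have h1 := F_le (a := i) (b := e + 4 - i) (by omega) (by omega) (by omega) (by omega)
        have h1' : ((i : ℝ) + ((e + 4 - i : ℕ) : ℝ)) / 4 + 2 = (y + 1) / 4 + 2 := by
          rw [Nat.cast_sub (by omega), hy]
          push_cast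
          ring
        rw [h1'] at h1
        have h2 := ih i (by omega) (by omega)
        have h3 := ih (e + 4 - i) (by omega) (by omega)
        have hm := phi_mul (i - 2) (e + 2 - i)
        rw [show i - 2 + 2 = i by omega, show e + 2 - i + 2 = e + 4 - i by omega,
          show i - 2 + (e + 2 - i) + 2 = e + 2 by omega,
          show i - 2 + (e + 2 - i) + 4 = e + 4 by omega] at hm
        have hm' : (phi i : ℝ) * phi (e + 4 - i) * (y - 1) ≤ phi (e + 4) := by
          have : ((phi i * phi (e + 4 - i) * (e + 2) : ℕ) : ℝ) ≤ ((phi (e + 4) : ℕ) : ℝ) := by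
            exact_mod_cast hm
          push_cast at this
          rw [hy]
          linarith
        have hy1 : 0 < y - 1 := by linarith
        have hm2 : ((phi i : ℝ) * phi (e + 4 - i)) ^ 20 ≤ (phi (e + 4) : ℝ) ^ 20 / (y - 1) ^ 20 := by
          rw [← div_pow]
          apply pow_le_pow_left₀ (by positivity)
          rw [le_div_iff₀ hy1]
          exact hm'
        have hκm : κ ^ (i / 2) * κ ^ ((e + 4 - i) / 2) ≤ κ ^ ((e + 4) / 2) := by
          rw [← pow_add]
          exact pow_le_pow_right₀ hκ1 (by omega)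
        have hR1 := R_le (d := i)
        have hR2 := R_le (d := e + 4 - i)
        have hR3 := R_nonneg (d := i) (by omega)
        have hR4 := R_nonneg (d := e + 4 - i) (by omega)
        have h4 : seq i * seq (e + 4 - i) ≤ 225 / (y - 1) ^ 20 * P := by
          calc seq i * seq (e + 4 - i)
              ≤ (κ ^ (i / 2) * R i * (phi i : ℝ) ^ 20) *
                (κ ^ ((e + 4 - i) / 2) * R (e + 4 - i) * (phi (e + 4 - i) : ℝ) ^ 20) :=
                mul_le_mul h2 h3 (seq_nonneg _) (by positivity)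
            _ = (κ ^ (i / 2) * κ ^ ((e + 4 - i) / 2)) * (R i * R (e + 4 - i)) *
                ((phi i : ℝ) * phi (e + 4 - i)) ^ 20 := by ring
            _ ≤ κ ^ ((e + 4) / 2) * (15 * 15) * ((phi (e + 4) : ℝ) ^ 20 / (y - 1) ^ 20) := by
                apply mul_le_mul _ hm2 (by positivity) (by positivity)
                apply mul_le_mul hκm _ (by positivity) (by positivity)
                exact mul_le_mul hR1 hR2 hR4 (by norm_num)
            _ = 225 / (y - 1) ^ 20 * P := by rw [hP]; ring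
        rw [mul_assoc]
        exact mul_le_mul h1 h4 (mul_nonneg (seq_nonneg _) (seq_nonneg _)) (by positivity)
      have tms := sum_le_sum tm
      rw [sum_const, Nat.card_Ico, show e + 3 - 3 = e by omega, nsmul_eq_mul] at tms
      have hy1 : 0 < y - 1 := by linarith
      have tms' : (e : ℝ) * (((y + 1) / 4 + 2) * (225 / (y - 1) ^ 20 * P)) ≤
          (y - 2) * (((y + 1) / 4 + 2) * (225 / (y - 1) ^ 20 * P)) := by
        apply mul_le_mul_of_nonneg_right _ (by positivity)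
        rw [hy]; linarith
      have hnum := num_ineq hy3
      have hRd : R (e + 4) = 15 - 15 / (y + 1) := by
        unfold R
        rw [if_neg (by omega), hy]
        push_cast
        ring_nf
      rw [hRd, hsplit]
      have hfin : P * (15 - 15 / (y - 1) + 45 / (y - 1) ^ 20) +
          2 * (((y + 1) / 4 + 2) * (15 * (2 / y) ^ 10 * P)) +
          (y - 2) * (((y + 1) / 4 + 2) * (225 / (y - 1) ^ 20 * P)) ≤ P * (15 - 15 / (y + 1)) := by
        have e1 : P * (15 - 15 / (y - 1) + 45 / (y - 1) ^ 20) +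
          2 * (((y + 1) / 4 + 2) * (15 * (2 / y) ^ 10 * P)) +
          (y - 2) * (((y + 1) / 4 + 2) * (225 / (y - 1) ^ 20 * P)) =
          P * (15 - 15 / (y - 1) + (45 / (y - 1) ^ 20 + ((y + 1) / 4 + 2) * (30 * (2 / y) ^ 10 +
            225 * (y - 2) / (y - 1) ^ 20))) := by ring
        rw [e1]
        apply mul_le_mul_of_nonneg_left _ hP0
        linarith
      have hgoal : κ ^ ((e + 4) / 2) * (15 - 15 / (y + 1)) * (phi (e + 4) : ℝ) ^ 20 =
          P * (15 - 15 / (y + 1)) := by rw [hP]; ring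
      rw [hgoal]
      linarith

/-- The comparison of consecutive terms. -/
lemma compare (m : ℕ) : seq (2 * m + 3) ^ (2 * m + 2) < seq (2 * m + 2) ^ (2 * m + 3) := by
  have hκ := κ_pos
  set x : ℝ := (phi (2 * m + 2) : ℝ) with hx
  have hx0 : 0 < x := by rw [hx]; exact_mod_cast phi_pos _
  set N : ℝ := ((2 * m + 2 : ℕ) : ℝ) with hN
  have hN0 : 0 < N := by rw [hN]; positivity
  have h1 : seq (2 * m + 3) ≤ κ ^ (m + 1) * 15 * (N ^ 10 * x ^ 20) := by
    have h2 := upper (2 * m + 3) (by omega)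
    rw [show (2 * m + 3) / 2 = m + 1 by omega] at h2
    have h3 := R_le (d := 2 * m + 3)
    have h4 : (phi (2 * m + 3) : ℝ) ^ 2 ≤ N * x ^ 2 := by
      have h5 := phi_odd m
      have h6 : ((phi (2 * m + 3) ^ 2 : ℕ) : ℝ) ≤ (((2 * m + 1) * phi (2 * m + 2) ^ 2 : ℕ) : ℝ) := by
        exact_mod_cast h5
      push_cast at h6
      have h7 : N = 2 * (m : ℝ) + 2 := by rw [hN]; push_cast; ring
      rw [h7]
      nlinarith [sq_nonneg x]
    have h8 : (phi (2 * m + 3) : ℝ) ^ 20 ≤ N ^ 10 * x ^ 20 := by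
      have := pow_le_pow_left₀ (by positivity) h4 10
      calc (phi (2 * m + 3) : ℝ) ^ 20 = ((phi (2 * m + 3) : ℝ) ^ 2) ^ 10 := by ring
        _ ≤ (N * x ^ 2) ^ 10 := this
        _ = N ^ 10 * x ^ 20 := by ring
    refine h2.trans ?_
    apply mul_le_mul _ h8 (by positivity) (by positivity)
    exact mul_le_mul_of_nonneg_left h3 (by positivity)
  have h2 := lower m
  rw [← hx] at h2
  have h3 : N ^ (m + 1) ≤ 6 ^ (m + 1) * x := pow_le_phi m
  have h4 : (15 : ℝ) ^ 2 * 6 ^ 20 < κ := by unfold κ K; norm_num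
  have h5 : (15 : ℝ) ^ (2 * m + 2) * N ^ (20 * (m + 1)) < κ ^ (m + 1) * x ^ 20 := by
    have h6 : (N ^ (m + 1)) ^ 20 ≤ (6 ^ (m + 1) * x) ^ 20 := pow_le_pow_left₀ (by positivity) h3 20
    have h7 : ((15 : ℝ) ^ 2 * 6 ^ 20) ^ (m + 1) < κ ^ (m + 1) :=
      pow_lt_pow_left₀ h4 (by positivity) (by omega)
    calc (15 : ℝ) ^ (2 * m + 2) * N ^ (20 * (m + 1))
        = (15 ^ 2) ^ (m + 1) * (N ^ (m + 1)) ^ 20 := by
          rw [← pow_mul, ← pow_mul]
          ring_nf
      _ ≤ (15 ^ 2) ^ (m + 1) * (6 ^ (m + 1) * x) ^ 20 := by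
          apply mul_le_mul_of_nonneg_left h6 (by positivity)
      _ = (15 ^ 2 * 6 ^ 20) ^ (m + 1) * x ^ 20 := by
          rw [mul_pow (6 ^ (m + 1)) x 20, mul_pow ((15 : ℝ) ^ 2) (6 ^ 20) (m + 1), ← pow_mul (6 : ℝ),
            ← pow_mul (6 : ℝ), mul_comm (m + 1) 20]
          ring
      _ < κ ^ (m + 1) * x ^ 20 := by
          apply mul_lt_mul_of_pos_right h7 (by positivity)
  calc seq (2 * m + 3) ^ (2 * m + 2)
      ≤ (κ ^ (m + 1) * 15 * (N ^ 10 * x ^ 20)) ^ (2 * m + 2) :=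
        pow_le_pow_left₀ (seq_nonneg _) h1 _
    _ = ((κ ^ (m + 1) * x ^ 20) ^ (2 * m + 2)) * (15 ^ (2 * m + 2) * N ^ (20 * (m + 1))) := by
        have e1 : N ^ (20 * (m + 1)) = (N ^ 10) ^ (2 * m + 2) := by
          rw [← pow_mul]
          ring_nf
        rw [e1, ← mul_pow, ← mul_pow]
        ring
    _ < ((κ ^ (m + 1) * x ^ 20) ^ (2 * m + 2)) * (κ ^ (m + 1) * x ^ 20) := by
        apply mul_lt_mul_of_pos_left h5 (by positivity)
    _ = (κ ^ (m + 1) * x ^ 20) ^ (2 * m + 3) := by ring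
    _ ≤ seq (2 * m + 2) ^ (2 * m + 3) := pow_le_pow_left₀ (by positivity) h2 _

/-! ### Admissibility -/

lemma F_rational : IsRationalFun F := by
  let A : MvPolynomial (Fin 2) ℚ := MvPolynomial.X 0 + MvPolynomial.X 1
  let B : MvPolynomial (Fin 2) ℚ :=
    1 + (MvPolynomial.X 0 - 2) ^ 2 * MvPolynomial.X 1 ^ 20
  let C : MvPolynomial (Fin 2) ℚ :=
    1 + ((MvPolynomial.X 0 - 1) ^ 2 + (MvPolynomial.X 1 - 1) ^ 2) * 10 ^ 18
  refine ⟨MvPolynomial.X 0 * MvPolynomial.X 1 * B * C + MvPolynomial.X 1 ^ 20 * A * C +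
    10 ^ 18 * A * B, A * B * C, fun a b ha hb => ?_⟩
  have h1 : (0 : ℝ) < a := by exact_mod_cast ha
  have h2 : (0 : ℝ) < b := by exact_mod_cast hb
  have hA : MvPolynomial.aeval ![(a : ℝ), (b : ℝ)] A = (a : ℝ) + b := by
    simp [A]
  have hB : MvPolynomial.aeval ![(a : ℝ), (b : ℝ)] B = 1 + ((a : ℝ) - 2) ^ 2 * (b : ℝ) ^ 20 := by
    simp [B]
  have hC : MvPolynomial.aeval ![(a : ℝ), (b : ℝ)] C =
      1 + (((a : ℝ) - 1) ^ 2 + ((b : ℝ) - 1) ^ 2) * 10 ^ 18 := by
    simp [C]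
  have hA0 : (a : ℝ) + b ≠ 0 := by positivity
  have hB0 : 1 + ((a : ℝ) - 2) ^ 2 * (b : ℝ) ^ 20 ≠ 0 := by positivity
  have hC0 : 1 + (((a : ℝ) - 1) ^ 2 + ((b : ℝ) - 1) ^ 2) * 10 ^ 18 ≠ 0 := by positivity
  constructor
  · rw [map_mul, map_mul, hA, hB, hC]
    exact mul_ne_zero (mul_ne_zero hA0 hB0) hC0
  · simp only [map_mul, map_add, map_pow, hA, hB, hC, MvPolynomial.aeval_X, Matrix.cons_val_zero,
      Matrix.cons_val_one, map_ofNat]
    unfold F s2 s3 K
    field_simp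

lemma F_limit : Tendsto (fun p : ℕ × ℕ => F p.1 p.2 /
    (((p.1 : ℝ) * p.2) / ((p.1 : ℝ) + p.2)) ^ (1 : ℝ)) (atTop ×ˢ atTop) (nhds 1) := by
  have h1 : Tendsto (fun p : ℕ × ℕ => (1 : ℝ) + 2 * (1 / (p.1 : ℝ) + 1 / (p.2 : ℝ)))
      (atTop ×ˢ atTop) (nhds 1) := by
    have e1 : Tendsto (fun p : ℕ × ℕ => 1 / (p.1 : ℝ)) (atTop ×ˢ atTop) (nhds 0) :=
      tendsto_one_div_atTop_nhds_zero_nat.comp tendsto_fst
    have e2 : Tendsto (fun p : ℕ × ℕ => 1 / (p.2 : ℝ)) (atTop ×ˢ atTop) (nhds 0) :=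
      tendsto_one_div_atTop_nhds_zero_nat.comp tendsto_snd
    simpa using (tendsto_const_nhds (x := (1 : ℝ))).add ((e1.add e2).const_mul 2)
  have hev : ∀ᶠ p : ℕ × ℕ in atTop ×ˢ atTop, 3 ≤ p.1 ∧ 3 ≤ p.2 :=
    (tendsto_fst.eventually (eventually_ge_atTop 3)).and
      (tendsto_snd.eventually (eventually_ge_atTop 3))
  have key : ∀ p : ℕ × ℕ, 3 ≤ p.1 → 3 ≤ p.2 → F p.1 p.2 /
      (((p.1 : ℝ) * p.2) / ((p.1 : ℝ) + p.2)) ^ (1 : ℝ) =
      1 + (s2 p.1 p.2 + s3 p.1 p.2) * (1 / (p.1 : ℝ) + 1 / (p.2 : ℝ)) := by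
    intro p h3 h4
    have h5 : (0 : ℝ) < p.1 := by positivity
    have h6 : (0 : ℝ) < p.2 := by positivity
    rw [Real.rpow_one]
    unfold F
    field_simp
    ring
  refine tendsto_of_tendsto_of_tendsto_of_le_of_le' tendsto_const_nhds h1 ?_ ?_
  · filter_upwards [hev] with p hp
    rw [key p hp.1 hp.2]
    have h5 := s2_nonneg (p.1 : ℝ) p.2
    have h6 := s3_nonneg (p.1 : ℝ) p.2
    have : 0 ≤ (s2 p.1 p.2 + s3 p.1 p.2) * (1 / (p.1 : ℝ) + 1 / (p.2 : ℝ)) := by positivity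
    linarith
  · filter_upwards [hev] with p hp
    rw [key p hp.1 hp.2]
    have h5 : s2 (p.1 : ℝ) p.2 ≤ 1 := s2_le (by exact_mod_cast one_le_sq (show p.1 ≠ 2 by omega))
    have h6 : s3 (p.1 : ℝ) p.2 ≤ 1 := by
      apply s3_le
      have := one_le_sq (show p.1 ≠ 1 by omega)
      push_cast at this
      have := sq_nonneg ((p.2 : ℝ) - 1)
      linarith
    have h7 : 0 ≤ 1 / (p.1 : ℝ) + 1 / (p.2 : ℝ) := by positivity
    have := mul_le_mul_of_nonneg_right (add_le_add h5 h6) h7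
    linarith

lemma F_admissible : Admissible F :=
  ⟨F_rational, fun _ _ ha hb => F_pos ha hb, 1, one_pos, 1, one_pos, F_limit⟩

/-- There is an admissible function `f` such that, for every initial value `x > 0`, the sequence
`n` defined by `n 1 = x` and the convolution recursion of `f` satisfies
`n (d + 1) ^ (1 / (d + 1)) < n d ^ (1 / d)` for infinitely many `d`. -/
theorem result : ∃ f : ℕ → ℕ → ℝ, Admissible f ∧ ∀ x : ℝ, 0 < x → ∃ n : ℕ → ℝ, n 1 = x ∧
    Recursion f n ∧ ∀ d₀ : ℕ, ∃ d ≥ d₀, 1 ≤ d ∧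
      n (d + 1) ^ (1 / ((d : ℝ) + 1)) < n d ^ (1 / (d : ℝ)) := by
  refine ⟨F, F_admissible, fun x hx => ⟨fun d => x ^ d * seq d, ?_, ?_, ?_⟩⟩
  · simp [seq_one]
  · intro d hd
    simp only
    rw [seq_rec d hd, mul_sum]
    apply sum_congr rfl
    intro i hi
    rw [mem_Ico] at hi
    have : x ^ d = x ^ i * x ^ (d - i) := by
      rw [← pow_add]
      congr 1
      omega
    rw [this]
    ring
  · intro d₀
    refine ⟨2 * d₀ + 2, by omega, by omega, ?_⟩
    simp only
    have hc := compare d₀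
    have hs1 : 0 ≤ seq (2 * d₀ + 3) := seq_nonneg _
    have hs2 : 0 ≤ seq (2 * d₀ + 2) := seq_nonneg _
    set D : ℝ := ((2 * d₀ + 2 : ℕ) : ℝ) with hD
    have hD0 : 0 < D := by rw [hD]; positivity
    have hD1 : ((2 * d₀ + 3 : ℕ) : ℝ) = D + 1 := by rw [hD]; push_cast; ring
    rw [show 2 * d₀ + 2 + 1 = 2 * d₀ + 3 by ring]
    rw [Real.mul_rpow (by positivity) hs1, Real.mul_rpow (by positivity) hs2]
    have hx1 : (x ^ (2 * d₀ + 3)) ^ (1 / (D + 1)) = x := by
      rw [← Real.rpow_natCast, ← Real.rpow_mul hx.le, hD1, mul_one_div_cancel (by positivity),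
        Real.rpow_one]
    have hx2 : (x ^ (2 * d₀ + 2)) ^ (1 / D) = x := by
      rw [← Real.rpow_natCast, ← Real.rpow_mul hx.le, ← hD, mul_one_div_cancel hD0.ne',
        Real.rpow_one]
    rw [hx1, hx2]
    apply mul_lt_mul_of_pos_left _ hx
    have h1 : (seq (2 * d₀ + 3) ^ (2 * d₀ + 2)) ^ (1 / (D * (D + 1))) <
        (seq (2 * d₀ + 2) ^ (2 * d₀ + 3)) ^ (1 / (D * (D + 1))) :=
      Real.rpow_lt_rpow (by positivity) hc (by positivity)
    have e1 : (seq (2 * d₀ + 3) ^ (2 * d₀ + 2)) ^ (1 / (D * (D + 1))) =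
        seq (2 * d₀ + 3) ^ (1 / (D + 1)) := by
      rw [← Real.rpow_natCast, ← Real.rpow_mul hs1, ← hD]
      congr 1
      field_simp
    have e2 : (seq (2 * d₀ + 2) ^ (2 * d₀ + 3)) ^ (1 / (D * (D + 1))) =
        seq (2 * d₀ + 2) ^ (1 / D) := by
      rw [← Real.rpow_natCast, ← Real.rpow_mul hs2, hD1]
      congr 1
      field_simp
    rwa [e1, e2] at h1

end Pool.Agent.Results.MP_0f9b8a_co.ParityOscillation
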